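import Pool.Agent.Helper30_Simp2.Fin
import Pool.Agent.Helper30_Simp.Assembly
import Pool.Agent.Helper26_Simp2.Alg2
import Pool.Agent.Helper28_Simp2.Zsc
import Pool.Agent.Helper36_Simp2.Gcd
import Pool.Agent.Helper40_Simp2.Str
import Pool.Agent.Helper40_Simp2.Zg
import Pool.Agent.Helper63_Simp2.Cls
import Pool.Agent.Helper63_Simp2.Zuni
import Pool.Agent.Helper66_Simp2.BData2
import Pool.Agent.Helper73_Simp2.Tnum
import Pool.Agent.Helper73_Simp2.Zalg
import Pool.Agent.Helper7_Simp2.Ext2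

/-!
# Assembly
-/

set_option autoImplicit false

namespace Pool.Agent.Helper30_Simp2

open Pool.Agent.Helper30_Simp

theorem core2Stmt : Core2Stmt :=
  core2 Helper30_Simp.H42.eroot (H26.alg2 Helper30_Simp.H94.ave H73.tnum) H66.bdata2

theorem strStmt : StrStmt := H40.str

theorem zfin2Stmt : Zfin2Stmt :=
  H63.zuni
    (H63.cls Helper30_Simp.H51.fts (Helper30_Simp.H39.weights Helper30_Simp.H51.fts)
      (Helper30_Simp.H39.split Helper30_Simp.H51.fts))
    (H28.zsc (H73.zalg H7.ext2) H40.zg) H36.gcd Helper30_Simp.H70.strata Helper30_Simp.H51.p1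
    Helper30_Simp.H51.p2 (Helper30_Simp.H51.p3 Helper30_Simp.H52.hen) Helper30_Simp.H70.ndeg
    (Helper30_Simp.H39.ytt (Helper30_Simp.H39.weights Helper30_Simp.H51.fts)
      (Helper30_Simp.H39.split Helper30_Simp.H51.fts)) Helper30_Simp.H32.trunc coneStmt

end Pool.Agent.Helper30_Simp2
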