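import Pool.Agent.Helper30_Simp2.Assembly

/-!
# The equivariant motivic monodromy conjecture for simplicial Newton-nondegenerate polynomials

`k` is a field with an embedding in `ℂ` and `f` is a polynomial over `k` in a finite set of
variables `σ`, so `X = 𝔸^σ`. Let `M` be the set of the exponent vectors of the monomials of `f`.

* `Simplicial M`: for every real weight vector `u ≥ 0` which is positive on `M`, the exponent
  vectors of the initial form `in_u f` are linearly independent.
* `Nondeg f`: every nonzero restriction of `f` to a coordinate subspace is smooth in the torus.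

`MM f` is the Grothendieck ring `ℳ^μ_{X_s}` of varieties over `X_s = {f = 0}` with good action of
the profinite group scheme `μ` of roots of unity, localized at `𝕃`, and `Zf f` is the equivariant
motivic zeta function of Denef and Loeser. `bfun` is the Bernstein-Sato polynomial.

Squads SIMP and SIMP2: thanks to helper6, helper7, helper26, helper28, helper36, helper40,
helper63, helper66, helper68, helper73 and all authors of SIMP. Now the case `r = 0` of the
hand-in `StablySimplicial` (helper8), up to the condition `a < 0`.
-/

set_option autoImplicit false

namespace Pool.Agent.Helper30_Simp2.AllSimplicial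

open Pool.Agent.Helper6_Mono Pool.Agent.Helper30_Simp Pool.Agent.Helper30_Simp2

/-- For every non-constant simplicial Newton-nondegenerate polynomial `f` there is a finite set `S`
of pairs `(a, b)` of integers with `a < 0 < b` and `b_f(a / b) = 0` such that `Z_f(T)` lies in the
algebra generated over `ℳ^μ_{X_s}` by `T` and the elements `1 / (1 - 𝕃^a T^b)`, `(a, b) ∈ S`. -/
theorem all_simplicial {k : Type} [Field k] [Algebra k ℂ] {σ : Type} [Fintype σ]
    {f : MvPolynomial σ k} (hf : ∀ c : k, f ≠ MvPolynomial.C c)
    (hS : Simplicial f.support) (hN : Nondeg f) :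
    ∃ S : Finset (ℤ × ℕ),
      (∀ p ∈ S, p.1 < 0 ∧ 0 < p.2 ∧
        (bfun (MvPolynomial.map (algebraMap k ℂ) f)).eval ((p.1 : ℂ) / (p.2 : ℂ)) = 0) ∧
      Zf f ∈ zetaRing f S :=
  main2 zfin2Stmt strStmt core2Stmt hf hS hN

end Pool.Agent.Helper30_Simp2.AllSimplicial
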