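import Pool.Agent.Helper30_Simp.Stmts
import Pool.Agent.Helper32_Simp.Trunc
import Pool.Agent.Helper15_Simp.Zfin

/-!
# Module statements for the theorem on all simplicial Newton-nondegenerate polynomials
-/

set_option autoImplicit false
set_option linter.unusedVariables false
set_option linter.unusedSectionVars false

namespace Pool.Agent.Helper30_Simp2

open PowerSeries Finset Pool.Agent.Helper6_Mono Pool.Agent.Helper30_Simp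

/-! ## Geometry of the weight vectors -/

section geo

variable {σ : Type} [Fintype σ]

/-- the walls: the coordinates and the monomials -/
abbrev Wa (M : Finset (σ →₀ ℕ)) : Type := σ ⊕ M

/-- the slack of the walls at `(u, N)` -/
def slk (M : Finset (σ →₀ ℕ)) (u : σ → ℕ) (N : ℕ) : Wa M → ℤ
  | Sum.inl i => (u i : ℤ)
  | Sum.inr α => ((dot u (α : σ →₀ ℕ) : ℕ) : ℤ) - N

/-- the integral points of the closed cone on which the walls in `S` are tight -/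
def InK (M : Finset (σ →₀ ℕ)) (S : Finset (Wa M)) (u : σ → ℕ) (N : ℕ) : Prop :=
  (∀ ρ, 0 ≤ slk M u N ρ) ∧ ∀ ρ ∈ S, slk M u N ρ = 0

/-- the cone is flat for the slope `x` -/
def Flat (M : Finset (σ →₀ ℕ)) (x : ℚ) (S : Finset (Wa M)) : Prop :=
  ∀ (u : σ → ℕ) (N : ℕ), InK M S u N → ((∑ i, u i : ℕ) : ℚ) = x * N

/-- `j` is a base direction of the apex `A` at `u` -/
def Dir (M : Finset (σ →₀ ℕ)) (u : σ → ℕ) (A : σ →₀ ℕ) (j : σ) : Prop :=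
  u j ≠ 0 ∧ A j = 1 ∧ ∀ β ∈ face M u, β ≠ A → β j = 0

/-- some monomial of the face of `u` has exactly one base direction -/
def UB1 (M : Finset (σ →₀ ℕ)) (u : σ → ℕ) : Prop :=
  ∃ A ∈ face M u, ∃ j, Dir M u A j ∧ ∀ l, Dir M u A l → l = j

/-- all flat cells for the slope `x` are `UB₁` -/
def AllUB (M : Finset (σ →₀ ℕ)) (x : ℚ) : Prop :=
  ∀ (S : Finset (Wa M)) (u : σ → ℕ) (N : ℕ), Flat M x S → InK M S u N → u ≠ 0 → UB1 M u

/-- MODULE EXT2: a cone which is not flat contains a facet vector of another slope or a vector of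
value zero -/
def Ext2Stmt : Prop :=
  ∀ (σ : Type) [Fintype σ] (M : Finset (σ →₀ ℕ)), M.Nonempty → ∀ (x : ℚ) (S : Finset (Wa M)),
    ¬ Flat M x S → ∃ (κ : σ → ℕ) (N : ℕ), κ ≠ 0 ∧ InK M S κ N ∧
      (N = 0 ∨ (IsFacet M κ ∧ (∃ α ∈ face M κ, dot κ α = N) ∧ ((∑ i, κ i : ℕ) : ℚ) ≠ x * N))

/-- MODULE RATPT: integral points in real cells -/
def RatPtStmt : Prop :=
  ∀ (σ : Type) [Fintype σ] (M : Finset (σ →₀ ℕ)) (w : σ → ℝ) (N : ℝ), 0 < N → (∀ i, 0 ≤ w i) →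
    (∀ β ∈ M, N ≤ dot w β) → ∃ (w' : σ → ℕ) (N' : ℕ), 0 < N' ∧ (∀ i, w' i = 0 ↔ w i = 0) ∧
      ∀ β ∈ M, N' ≤ dot w' β ∧ (dot w' β = N' ↔ dot w β = N)

end geo

/-! ## The zeta function: algebra -/

section alg

variable {σ : Type} [Fintype σ] (M : Finset (σ →₀ ℕ)) (K : Type) [CommRing K]

/-- the values of the walls at `u` -/
def wv (u : σ → ℕ) : Wa M → ℕ
  | Sum.inl i => u i
  | Sum.inr α => dot u (α : σ →₀ ℕ)

/-- the monomial of the translation by `u` -/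
noncomputable def Ev (u : σ → ℕ) : MvPolynomial (Wa M) K := ∏ ρ, MvPolynomial.X ρ ^ wv M u ρ

/-- the monomial of the shift of the level -/
noncomputable def ET : MvPolynomial (Wa M) K := ∏ α : M, MvPolynomial.X (Sum.inr α)

/-- the operator of a closed cone -/
noncomputable def Xs (S : Finset (Wa M)) : MvPolynomial (Wa M) K := ∏ ρ ∈ S, (1 - MvPolynomial.X ρ)

open scoped Classical in
/-- the operator of a relatively open cell -/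
noncomputable def cellP (I : Finset (σ →₀ ℕ)) (J : Finset σ) : MvPolynomial (Wa M) K :=
  (∏ α : M, if (α : σ →₀ ℕ) ∈ I then 1 - MvPolynomial.X (Sum.inr α) else MvPolynomial.X (Sum.inr α))
    * ∏ i : σ, if i ∈ J then 1 - MvPolynomial.X (Sum.inl i) else MvPolynomial.X (Sum.inl i)

/-- `A` and `j` are valid for `I` and `J` -/
def Val (I : Finset (σ →₀ ℕ)) (J : Finset σ) (A : σ →₀ ℕ) (j : σ) : Prop :=
  I ⊆ M ∧ A ∈ M ∧ A ∉ I ∧ j ∉ J ∧ A j = 1 ∧ ∀ β ∈ I, β j = 0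

end alg

open scoped Classical in
/-- MODULE ZALG: the sum over the cells lies in the ideal -/
def ZAlgStmt : Prop :=
  ∀ (σ : Type) [Fintype σ] (M : Finset (σ →₀ ℕ)), M.Nonempty → ∀ (x : ℚ) (K : Type) [CommRing K]
    (X : K) (a : Ideal (MvPolynomial (Wa M) K)),
    (∀ n : ℕ, n ≠ 0 → IsUnit (1 - X ^ n)) →
    (∀ u : σ → ℕ, Ev M K u - MvPolynomial.C (X ^ (∑ i, u i)) ∈ a) →
    (∀ S : Finset (Wa M), (∀ u N, InK M S u N → u = 0 ∧ N = 0) → Xs M K S ∈ a) →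
    (∀ (κ : σ → ℕ) (N : ℕ), IsFacet M κ → (∃ α ∈ face M κ, dot κ α = N) →
      ((∑ i, κ i : ℕ) : ℚ) ≠ x * N →
      ∀ p, (ET M K ^ N - MvPolynomial.C (X ^ (∑ i, κ i))) * p ∈ a → p ∈ a) →
    AllUB M x →
    ∀ z : Finset (σ →₀ ℕ) → Finset σ → K,
      (∀ I J A j, Val M I J A j → (1 - X) * z (insert A I) J = -(X * z I J)) →
      ∑ I ∈ M.powerset, ∑ J ∈ (univ : Finset σ).powerset,
        MvPolynomial.C (z I J) * cellP M K I J ∈ a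

section gg

variable {σ : Type} [Fintype σ] (M : Finset (σ →₀ ℕ))

/-- the generating function of the points `u` with `u i ≥ h i` and `u · α ≥ h α` -/
noncomputable def GG (h : Wa M → ℕ) : ℤ⟦X⟧ :=
  PowerSeries.mk fun d => (Nat.card {u : σ → ℕ // (∀ ρ, h ρ ≤ wv M u ρ) ∧ ∑ i, u i = d} : ℤ)

/-- the action of polynomials by shifts on the generating function, at level `N` -/
noncomputable def val (p : MvPolynomial (Wa M) ℤ⟦X⟧) (h : Wa M → ℕ) (N : ℕ) : ℤ⟦X⟧ :=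
  ∑ m ∈ p.support, p.coeff m * GG M (fun ρ => h ρ + m ρ + match ρ with
    | Sum.inl _ => 0
    | Sum.inr _ => N)

/-- the generating function of the cell `(I, J)` at level `l` -/
noncomputable def gfc (I : Finset (σ →₀ ℕ)) (J : Finset σ) (l : ℕ) : ℤ⟦X⟧ :=
  PowerSeries.mk fun d => (Nat.card {u : σ → ℕ // CellS M I J u l ∧ ∑ i, u i = d} : ℤ)

end gg

/-- MODULE ZG: properties of the generating function -/
def ZGStmt : Prop :=
  ∀ (σ : Type) [Fintype σ] (M : Finset (σ →₀ ℕ)), M.Nonempty →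
    (∀ P : Set (ℕ × ℕ), ∃ a : Ideal (MvPolynomial (Wa M) ℤ⟦X⟧),
      (∀ u : σ → ℕ, Ev M ℤ⟦X⟧ u - MvPolynomial.C (X ^ (∑ i, u i)) ∈ a) ∧
      (∀ S : Finset (Wa M), (∀ u N, InK M S u N → u = 0 ∧ N = 0) → Xs M ℤ⟦X⟧ S ∈ a) ∧
      (∀ (r N : ℕ), (r, N) ∈ P → ∀ p,
        (ET M ℤ⟦X⟧ ^ N - MvPolynomial.C (X ^ r)) * p ∈ a → p ∈ a) ∧
      ∀ p ∈ a, RQ X P (val M p 0)) ∧
    (∀ p q h N, val M (p + q) h N = val M p h N + val M q h N) ∧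
    (∀ c p h N, val M (MvPolynomial.C c * p) h N = c * val M p h N) ∧
    (∀ p N, val M (ET M ℤ⟦X⟧ * p) 0 N = val M p 0 (N + 1)) ∧
    ∀ (I : Finset (σ →₀ ℕ)) (J : Finset σ), I ⊆ M → I.Nonempty → ∀ N,
      val M (cellP M ℤ⟦X⟧ I J) 0 N = gfc M I J N

open scoped Classical in
/-- MODULE ZSC: the scalar version of the theorem on the zeta function -/
def ZScStmt : Prop :=
  ∀ (σ : Type) [Fintype σ] (M : Finset (σ →₀ ℕ)), M.Nonempty → ∀ x : ℚ, x ≠ 1 → AllUB M x →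
    ∀ (c : Finset σ → ℤ⟦X⟧) (y1 y0 : Finset (σ →₀ ℕ) → Finset σ → ℤ⟦X⟧),
      (∀ J, y1 ∅ J = 0) → (∀ J, y0 ∅ J = c J) →
      (∀ I J A j, Val M I J A j → (1 - X) * y1 (insert A I) J = X * (c J - y1 I J)) →
      (∀ I J A j, Val M I J A j → (1 - X) * y0 (insert A I) J = X * (c J - y0 I J)) →
      RQ (X : ℤ⟦X⟧) (steps ((slopes M ∪ {1}) \ {x})) (fun m =>
        ∑ I ∈ M.powerset, ∑ J ∈ (univ : Finset σ).powerset, if I = ∅ then 0 else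
          y1 I J * gfc M I J m + y0 I J * ∑ l ∈ range m, X ^ (m - l) * gfc M I J l)

/-- MODULE GCD: steps of different slopes are coprime -/
def GcdStmt : Prop :=
  ∀ (U B : Set ℚ) (a : ℕ → Polynomial ℤ), RQ Polynomial.X (steps U) a →
    (∀ x ∈ B, RQ Polynomial.X (steps (U \ {x})) a) → RQ Polynomial.X (steps (U \ B)) a

/-! ## The zeta function: classes -/

section cls

variable {k : Type} [Field k] {σ : Type} [Fintype σ]

open scoped Classical in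
/-- the number of variables not in `J` which occur in `I` -/
noncomputable def dd (I : Finset (σ →₀ ℕ)) (J : Finset σ) : ℕ :=
  (univ.filter fun i => i ∉ J ∧ ∃ α ∈ I, α i ≠ 0).card

/-- the torus of `(I, J)` with rational weights -/
@[reducible] noncomputable def VQ (f : MvPolynomial σ k) (I : Finset (σ →₀ ℕ)) (J : Finset σ)
    (w : σ → ℚ) (hw : ∀ α ∈ I, ∑ i, w i * (α i : ℚ) = 1) (hJ : ∀ i ∈ J, w i = 0) :
    TS QZ (part f I) where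
  ν i := ((w i : ℚ) : QZ)
  μ := 0
  hg α hα := by
    have h1 := hw α (mem_of_mem_part_support hα)
    rw [Finsupp.weight_apply, Finsupp.sum_fintype _ _ (fun i => by rw [zero_smul])]
    have h2 : ∀ i, α i • ((w i : ℚ) : QZ) = ((w i * (α i : ℚ) : ℚ) : QZ) := by
      intro i
      rw [← AddCircle.coe_nsmul, nsmul_eq_mul, mul_comm]
    simp_rw [h2]
    have h3 : ∑ i, ((w i * (α i : ℚ) : ℚ) : QZ) = ((∑ i, w i * (α i : ℚ) : ℚ) : QZ) :=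
      (map_sum (QuotientAddGroup.mk' (AddSubgroup.zmultiples (1 : ℚ))) _ _).symm
    rw [h3, h1]
    exact AddCircle.coe_period 1
  U := by classical exact univ \ freeV I J
  J := J
  hJ i hi := by
    rw [hJ i hi]
    rfl

end cls

open scoped Classical in
/-- MODULE CLS: elimination of a variable which occurs in only one monomial -/
def ClsStmt : Prop :=
  ∀ (k : Type) [Field k] (σ : Type) [Fintype σ] (R : Type 1) [CommRing R] (L : Rˣ)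
    (χ : SInv k (fun _ : σ => (0 : QZ)) L) (f : MvPolynomial σ k),
    (∀ (I : Finset (σ →₀ ℕ)) (J : Finset σ) (A : σ →₀ ℕ) (j : σ), Val f.support I J A j →
      (χ.χ (TT0 (V0 f (insert A I) J)) = ((L : R) - 1) ^ (dd (insert A I) J - 1)
          * χ.χ (TT0 (V0 f ∅ J))
        - ((L : R) - 1) ^ (dd (insert A I) J - 1 - dd I J) * χ.χ (TT0 (V0 f I J))) ∧
      ∀ (w : σ → ℚ) (hw : ∀ α ∈ insert A I, ∑ i, w i * (α i : ℚ) = 1)
        (hw' : ∀ α ∈ I, ∑ i, w i * (α i : ℚ) = 1) (hJ : ∀ i ∈ J, w i = 0),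
        χ.χ (TT1 (VQ f (insert A I) J w hw hJ) rfl) = ((L : R) - 1) ^ (dd (insert A I) J - 1)
          * χ.χ (TT0 (V0 f ∅ J))
        - ((L : R) - 1) ^ (dd (insert A I) J - 1 - dd I J) * χ.χ (TT1 (VQ f I J w hw' hJ) rfl)) ∧
    (∀ (J : Finset σ) (w : σ → ℚ) (hw : ∀ α ∈ (∅ : Finset (σ →₀ ℕ)), ∑ i, w i * (α i : ℚ) = 1)
      (hJ : ∀ i ∈ J, w i = 0), χ.χ (TT1 (VQ f ∅ J w hw hJ) rfl) = 0) ∧
    ∀ (I : Finset (σ →₀ ℕ)) (J : Finset σ) (w w' : σ → ℚ)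
      (hw : ∀ α ∈ I, ∑ i, w i * (α i : ℚ) = 1) (hJ : ∀ i ∈ J, w i = 0)
      (hw' : ∀ α ∈ I, ∑ i, w' i * (α i : ℚ) = 1) (hJ' : ∀ i ∈ J, w' i = 0),
      χ.χ (TT1 (VQ f I J w hw hJ) rfl) = χ.χ (TT1 (VQ f I J w' hw' hJ') rfl)

/-- MODULE LEAF: the core of a set of monomials -/
def LeafStmt : Prop :=
  ∀ (σ : Type) [Fintype σ] (J : Finset σ), ∃ (core : Finset (σ →₀ ℕ) → Finset (σ →₀ ℕ))
    (r : Finset (σ →₀ ℕ) → ℕ), core ∅ = ∅ ∧ r ∅ = 0 ∧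
    (∀ I, core I ⊆ I ∧ core (core I) = core I ∧ r (core I) = 0 ∧
      r I + dd (core I) J ≤ dd I J) ∧
    ∀ (I : Finset (σ →₀ ℕ)) (A : σ →₀ ℕ) (j : σ), A ∈ I → j ∉ J → A j = 1 →
      (∀ β ∈ I, β ≠ A → β j = 0) → ∃ I', A ∉ I' ∧ (∀ β, β ∈ I ↔ β = A ∨ β ∈ I') ∧
        core I = core I' ∧ r I = r I' + 1

/-- MODULE ZUNI: rationality of the normalized classes of the jet spaces, without the slopes of
flat cells which are all `UB₁` -/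
def Zfin2Stmt : Prop :=
  ∀ (k : Type) [Field k] [CharZero k] (σ : Type) [Fintype σ] (R : Type 1) [CommRing R] (L : Rˣ)
    (χ : SInv k (fun _ : σ => (0 : QZ)) L) (f : MvPolynomial σ k), f ≠ 0 →
    Simplicial f.support → Nondeg f → ∀ B : Set ℚ, 1 ∉ B → (∀ x ∈ B, AllUB f.support x) →
    ∃ a : ℕ → R, a 0 = 0 ∧ RP L (steps ((slopes f.support ∪ {1}) \ B)) a ∧
      ∀ (m : ℕ) (hm : m ≠ 0) (hω : m • ((((1 : ℚ) / m : ℚ)) : QZ) = 0),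
        a m = Li L ^ (m * Fintype.card σ) *
          χ.χ ((FibK k σ ((((1 : ℚ) / m : ℚ)) : QZ) m hω).app
            (Jet f Set.univ m ((((1 : ℚ) / m : ℚ)) : QZ)))

/-! ## The Bernstein-Sato polynomial -/

/-- the direction `j` is free at the real point `w` for the monomial `A` -/
def FreeDir {σ : Type} [Fintype σ] (M : Finset (σ →₀ ℕ)) (N : ℝ) (w : σ → ℝ) (A : σ →₀ ℕ)
    (j : σ) : Prop := w j ≠ 0 ∧ ∀ β ∈ M, dot w β = N → β ≠ A → β j = 0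

open scoped Classical in
/-- the vector `e_i - e_j` -/
noncomputable def dv {σ : Type} (i j l : σ) : ℚ := (if l = i then 1 else 0) - if l = j then 1 else 0

/-- data of a flat cell which is not `UB₁` but all whose proper faces are `UB₁` -/
structure FD {σ : Type} [Fintype σ] (M : Finset (σ →₀ ℕ)) (κ : σ → ℕ) where
  N : ℕ
  hN : 0 < N
  ge : ∀ α ∈ M, N ≤ dot κ α
  ex : ∃ α ∈ M, dot κ α = N
  flat : ∀ v : σ → ℚ, (∀ i, κ i = 0 → v i = 0) →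
    (∀ α ∈ face M κ, ∑ i, v i * (α i : ℚ) = 0) → ∑ i, v i = 0
  Ap : Finset (σ →₀ ℕ)
  j1 : (σ →₀ ℕ) → σ
  j2 : (σ →₀ ℕ) → σ
  ap : ∀ A ∈ Ap, A ∈ face M κ ∧ j1 A ≠ j2 A ∧ Dir M κ A (j1 A) ∧ Dir M κ A (j2 A)
  all : ∀ A ∈ face M κ, ∀ j, Dir M κ A j → A ∈ Ap ∧ (j = j1 A ∨ j = j2 A)
  span : ∀ v : σ → ℚ, (∀ i, κ i = 0 → v i = 0) →
    (∀ α ∈ face M κ, ∑ i, v i * (α i : ℚ) = 0) →
    ∃ y : (σ →₀ ℕ) → ℚ, ∀ i, v i = ∑ A ∈ Ap, y A * dv (j1 A) (j2 A) i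
  star : ∀ w : σ → ℝ, (∀ i, 0 ≤ w i) → (∀ i, κ i = 0 → w i = 0) → (∀ β ∈ M, (N : ℝ) ≤ dot w β) →
    (∀ α ∈ face M κ, dot w α = N) →
    ((∃ i, κ i ≠ 0 ∧ w i = 0) ∨ ∃ β ∈ M, β ∉ face M κ ∧ dot w β = N) →
    ∃ A ∈ Ap, ¬ (FreeDir M N w A (j1 A) ↔ FreeDir M N w A (j2 A))

/-- MODULE STR: the structure of a flat cell which is not `UB₁` -/
def StrStmt : Prop :=
  ∀ (σ : Type) [Fintype σ] (M : Finset (σ →₀ ℕ)) (x : ℚ), ¬ AllUB M x →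
    ∃ (κ : σ → ℕ) (D : FD M κ), ((∑ i, κ i : ℕ) : ℚ) = x * D.N

open scoped Classical in
/-- MODULE TNUM: the mixed difference of the number of lattice points of a polytope -/
def TStmt : Prop :=
  ∀ (A W : Type) [Fintype A] [Fintype W] (a b : A → W → ℕ) (g : W → ℝ), (∀ ρ, 0 < g ρ) →
    (∀ y : A → ℝ, (∀ ρ, 0 ≤ ∑ i, y i * ((a i ρ : ℝ) - b i ρ)) → y = 0) →
    (∀ y : A → ℝ, (∀ ρ, 0 ≤ g ρ + ∑ i, y i * ((a i ρ : ℝ) - b i ρ)) →
      (∃ ρ, g ρ + ∑ i, y i * ((a i ρ : ℝ) - b i ρ) = 0) →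
      ∃ i, ¬ ((∀ ρ, g ρ + ∑ l, y l * ((a l ρ : ℝ) - b l ρ) = 0 → a i ρ = 0) ↔
        ∀ ρ, g ρ + ∑ l, y l * ((a l ρ : ℝ) - b l ρ) = 0 → b i ρ = 0)) →
    ∃ η : ℝ, 0 < η ∧ ∃ M₀ : ℕ, ∀ M : ℕ, M₀ ≤ M → ∀ h : W → ℤ,
      (∀ ρ, |(h ρ : ℝ) - M * g ρ| ≤ η * M) →
      ∑ e : Finset A, (-1 : ℤ) ^ (Fintype.card A - e.card) *
        (Nat.card {y : A → ℤ // ∀ ρ, 0 ≤ h ρ +
          ∑ i, ((y i + if i ∈ e then 1 else 0) * (a i ρ : ℤ) - y i * (b i ρ : ℤ))} : ℤ) = 1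

section alg2

variable {P A W : Type} [Fintype P] [Fintype A] [Fintype W]

/-- faces: `c` are the parameters of `P`, `y` and `y + e` are the parameters of `A` -/
def IsFace2 (lam : P → W → ℚ) (a b : A → W → ℕ) (g : W → ℚ) (D : Finset P) (D' : Finset A)
    (S : Finset W) : Prop :=
  ∃ (c : P → ℝ) (e y : A → ℝ), (∀ i, 0 ≤ c i) ∧ (∀ i, i ∉ D → c i = 0) ∧ (∀ i, 0 ≤ e i) ∧
    (∀ i, i ∉ D' → e i = 0) ∧
    (∀ ρ, 0 ≤ (g ρ : ℝ) + ∑ i, c i * (lam i ρ : ℝ) +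
      ∑ i, ((y i + e i) * (a i ρ : ℝ) - y i * (b i ρ : ℝ))) ∧
    ∀ ρ ∈ S, (g ρ : ℝ) + ∑ i, c i * (lam i ρ : ℝ) +
      ∑ i, ((y i + e i) * (a i ρ : ℝ) - y i * (b i ρ : ℝ)) = 0

/-- linear forms with natural coefficients -/
noncomputable def lfn (a : A → W → ℕ) (i : A) : MvPolynomial W ℂ :=
  ∑ ρ, MvPolynomial.C ((a i ρ : ℕ) : ℂ) * MvPolynomial.X ρ

open scoped Classical in
/-- the ideal of the nonfaces -/
noncomputable def nf2 (lam : P → W → ℚ) (a b : A → W → ℕ) (g : W → ℚ) :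
    Ideal (MvPolynomial W ℂ) :=
  Ideal.span ({x | ∃ (D : Finset P) (D' : Finset A) (S : Finset W), ¬ IsFace2 lam a b g D D' S ∧
      x = (∏ ρ ∈ S, MvPolynomial.X ρ) * (∏ i ∈ univ \ D, lf lam i) * ∏ i ∈ univ \ D', lfn a i} ∪
    {x | ∃ i, x = lfn a i - lfn b i} ∪
    {x | ∃ α : W →₀ ℕ, ∑ ρ, α ρ = Fintype.card P + Fintype.card A + 1 ∧
      x = MvPolynomial.monomial α 1})

end alg2

/-- MODULE ALG2: the class of the polytope does not vanish -/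
def Alg2Stmt : Prop :=
  ∀ (P A W : Type) [Fintype P] [Fintype A] [Fintype W] (lam : P → W → ℚ) (a b : A → W → ℕ)
    (g : W → ℚ), (∀ ρ, 0 < g ρ) →
    (∀ (c : P → ℝ) (y : A → ℝ), (∀ i, 0 ≤ c i) →
      (∀ ρ, 0 ≤ ∑ i, c i * (lam i ρ : ℝ) + ∑ i, y i * ((a i ρ : ℝ) - b i ρ)) →
      c = 0 ∧ y = 0) →
    (∀ y : A → ℝ, (∀ ρ, 0 ≤ (g ρ : ℝ) + ∑ i, y i * ((a i ρ : ℝ) - b i ρ)) →
      (∃ ρ, (g ρ : ℝ) + ∑ i, y i * ((a i ρ : ℝ) - b i ρ) = 0) →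
      ∃ i, ¬ ((∀ ρ, (g ρ : ℝ) + ∑ l, y l * ((a l ρ : ℝ) - b l ρ) = 0 → a i ρ = 0) ↔
        ∀ ρ, (g ρ : ℝ) + ∑ l, y l * ((a l ρ : ℝ) - b l ρ) = 0 → b i ρ = 0)) →
    (∏ i, lf lam i) * ∏ i, lfn a i ∉ nf2 lam a b g

/-- MODULE BDATA2: a rational section and generic multiplicities for a flat cell -/
def BData2Stmt : Prop :=
  ∀ (σ : Type) [Fintype σ] (M : Finset (σ →₀ ℕ)) (κ : σ → ℕ),
    (∀ v : σ → ℚ, (∀ i, κ i = 0 → v i = 0) →
      (∀ α ∈ face M κ, ∑ i, v i * (α i : ℚ) = 0) → ∑ i, v i = 0) →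
    ∃ (m : (σ →₀ ℕ) → ℂ) (lam : (σ →₀ ℕ) → σ → ℚ),
      (∀ α, α ∉ face M κ → m α = 0 ∧ ∀ j, lam α j = 0) ∧
      (∀ α j, κ j = 0 → lam α j = 0) ∧
      (∀ j, κ j ≠ 0 → ∑ α ∈ M, m α * (α j : ℂ) = -1) ∧
      (∀ β ∈ face M κ, ∀ j, κ j ≠ 0 →
        ∑ α ∈ M, (∑ i, lam α i * (β i : ℚ)) * (α j : ℚ) = (β j : ℚ)) ∧
      (∀ α ∈ face M κ, (∃ n : ℤ, m α = n) → (∑ j, lam α j * (α j : ℚ) = 1) ∧
        ∀ β ∈ face M κ, β ≠ α → ∑ j, lam α j * (β j : ℚ) = 0)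

/-- MODULE CORE2: roots of the Bernstein-Sato polynomial -/
def Core2Stmt : Prop :=
  ∀ (σ : Type) [Fintype σ] (f : MvPolynomial σ ℂ) (κ : σ → ℕ), Simplicial f.support →
    ∀ D : FD f.support κ, (bfun f).eval (-(((∑ i, κ i : ℕ) : ℂ) / (D.N : ℕ))) = 0

end Pool.Agent.Helper30_Simp2
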