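import Pool.Agent.Helper30_Simp.Core1
import Pool.Agent.Helper30_Simp.Core2
import Pool.Agent.Helper30_Simp2.Stmts

/-!
# The ring of the nonfaces and the geometry of a flat cell
-/

set_option autoImplicit false
set_option linter.unusedVariables false
set_option linter.unusedSectionVars false

namespace Pool.Agent.Helper30_Simp2

open MvPolynomial Pool.Agent.Helper6_Mono Pool.Agent.Helper30_Simp

/-! ### the ring -/

section ring

variable {P A W : Type} [Fintype P] [Fintype A] [Fintype W] (lam : P → W → ℚ)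
  (a b : A → W → ℕ) (g : W → ℚ)

/-- the ring of the nonfaces -/
def NR : Type := MvPolynomial W ℂ ⧸ nf2 lam a b g

noncomputable instance : CommRing (NR lam a b g) :=
  inferInstanceAs (CommRing (MvPolynomial W ℂ ⧸ nf2 lam a b g))

noncomputable instance : Algebra ℂ (NR lam a b g) :=
  inferInstanceAs (Algebra ℂ (MvPolynomial W ℂ ⧸ nf2 lam a b g))

/-- the projection -/
noncomputable def pr2 : MvPolynomial W ℂ →ₐ[ℂ] NR lam a b g :=
  Ideal.Quotient.mkₐ ℂ (nf2 lam a b g)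

theorem pr2_zero {x : MvPolynomial W ℂ} : pr2 lam a b g x = 0 ↔ x ∈ nf2 lam a b g :=
  Ideal.Quotient.eq_zero_iff_mem

/-- the variables -/
noncomputable def Xw (ρ : W) : NR lam a b g := pr2 lam a b g (X ρ)

/-- linear forms -/
noncomputable def li (v : W → ℚ) : NR lam a b g :=
  ∑ ρ, algebraMap ℂ _ ((v ρ : ℚ) : ℂ) * Xw lam a b g ρ

theorem li_lam (i : P) : li lam a b g (lam i) = pr2 lam a b g (lf lam i) := by
  unfold li lf Xw
  rw [map_sum]
  refine Finset.sum_congr rfl fun ρ _ => ?_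
  rw [map_mul]
  exact congrArg (· * pr2 lam a b g (X ρ))
    ((pr2 lam a b g).commutes ((lam i ρ : ℚ) : ℂ)).symm

theorem li_nat (v : A → W → ℕ) (i : A) :
    li lam a b g (fun ρ => (v i ρ : ℚ)) = pr2 lam a b g (lfn v i) := by
  unfold li lfn Xw
  rw [map_sum]
  refine Finset.sum_congr rfl fun ρ _ => ?_
  rw [map_mul, Rat.cast_natCast]
  exact congrArg (· * pr2 lam a b g (X ρ))
    ((pr2 lam a b g).commutes ((v i ρ : ℕ) : ℂ)).symm

theorem li_zero : li lam a b g (fun _ => 0) = 0 := by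
  unfold li
  simp

theorem li_add (v v' : W → ℚ) :
    li lam a b g (fun ρ => v ρ + v' ρ) = li lam a b g v + li lam a b g v' := by
  unfold li
  rw [← Finset.sum_add_distrib]
  refine Finset.sum_congr rfl fun ρ _ => ?_
  rw [Rat.cast_add, map_add, add_mul]

theorem li_mul (c : ℚ) (v : W → ℚ) :
    li lam a b g (fun ρ => c * v ρ) = algebraMap ℂ _ ((c : ℚ) : ℂ) * li lam a b g v := by
  unfold li
  rw [Finset.mul_sum]
  refine Finset.sum_congr rfl fun ρ _ => ?_
  rw [Rat.cast_mul, map_mul, mul_assoc]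

theorem li_sum {ι : Type} (s : Finset ι) (v : ι → W → ℚ) :
    li lam a b g (fun ρ => ∑ i ∈ s, v i ρ) = ∑ i ∈ s, li lam a b g (v i) := by
  classical
  induction s using Finset.induction_on with
  | empty => simpa using li_zero lam a b g
  | insert a' s ha ih =>
    rw [Finset.sum_insert ha, ← ih, ← li_add]
    congr 1
    funext ρ
    rw [Finset.sum_insert ha]

theorem li_sub_ab (i : A) :
    li lam a b g (fun ρ => (a i ρ : ℚ) - (b i ρ : ℚ)) = 0 := by
  have h1 : (fun ρ => (a i ρ : ℚ) - (b i ρ : ℚ)) = fun ρ => (a i ρ : ℚ) + (-1) * (b i ρ : ℚ) := by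
    funext ρ; ring
  rw [h1, li_add lam a b g (fun ρ => (a i ρ : ℚ)) (fun ρ => (-1) * (b i ρ : ℚ)),
    li_mul lam a b g (-1) (fun ρ => (b i ρ : ℚ)), li_nat, li_nat]
  have h2 : pr2 lam a b g (lfn a i - lfn b i) = 0 := by
    rw [pr2_zero]
    exact Ideal.subset_span (Or.inl (Or.inr ⟨i, rfl⟩))
  rw [map_sub] at h2
  rw [Rat.cast_neg, Rat.cast_one, map_neg, map_one]
  linear_combination h2

theorem Xw_nilpotent (ρ : W) : IsNilpotent (Xw lam a b g ρ) := by
  classical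
  refine ⟨Fintype.card P + Fintype.card A + 1, ?_⟩
  unfold Xw
  rw [← map_pow, pr2_zero]
  refine Ideal.subset_span (Or.inr ⟨Finsupp.single ρ (Fintype.card P + Fintype.card A + 1), ?_, ?_⟩)
  · rw [Finset.sum_eq_single ρ]
    · rw [Finsupp.single_eq_same]
    · intro b _ hb
      rw [Finsupp.single_eq_of_ne hb]
    · intro h; exact absurd (Finset.mem_univ _) h
  · rw [X_pow_eq_monomial]

theorem li_nilpotent (v : W → ℚ) : IsNilpotent (li lam a b g v) := by
  rw [← mem_nilradical]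
  unfold li
  exact Ideal.sum_mem _ fun ρ _ =>
    Ideal.mul_mem_left _ _ (mem_nilradical.2 (Xw_nilpotent lam a b g ρ))

/-- the vanishing of the products of the nonfaces -/
theorem nonface2_zero {D : Finset P} {D' : Finset A} {S : Finset W}
    (h : ¬ IsFace2 lam a b g D D' S) {E : Finset P} {E' : Finset A}
    (hD : ∀ i, i ∈ E ↔ i ∉ D) (hD' : ∀ i, i ∈ E' ↔ i ∉ D') :
    (∏ ρ ∈ S, Xw lam a b g ρ) * (∏ i ∈ E, li lam a b g (lam i)) *
      ∏ i ∈ E', li lam a b g (fun ρ => (a i ρ : ℚ)) = 0 := by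
  classical
  have h1 : ∏ i ∈ E, li lam a b g (lam i)
      = pr2 lam a b g (∏ i ∈ Finset.univ \ D, lf lam i) := by
    rw [map_prod]
    refine Finset.prod_congr ?_ fun i _ => li_lam lam a b g i
    ext i
    rw [hD]
    simp
  have h1' : ∏ i ∈ E', li lam a b g (fun ρ => (a i ρ : ℚ))
      = pr2 lam a b g (∏ i ∈ Finset.univ \ D', lfn a i) := by
    rw [map_prod]
    refine Finset.prod_congr ?_ fun i _ => li_nat lam a b g a i
    ext i
    rw [hD']
    simp
  have h2 : ∏ ρ ∈ S, Xw lam a b g ρ = pr2 lam a b g (∏ ρ ∈ S, X ρ) := by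
    rw [map_prod]
    rfl
  rw [h1, h1', h2, ← map_mul, ← map_mul, pr2_zero]
  refine Ideal.subset_span (Or.inl (Or.inl ⟨D, D', S, h, ?_⟩))
  congr 1

theorem vertex2_ne (hA : Alg2Stmt) (hg : ∀ ρ, 0 < g ρ)
    (hb : ∀ (c : P → ℝ) (y : A → ℝ), (∀ i, 0 ≤ c i) →
      (∀ ρ, 0 ≤ ∑ i, c i * (lam i ρ : ℝ) + ∑ i, y i * ((a i ρ : ℝ) - b i ρ)) →
      c = 0 ∧ y = 0)
    (hs : ∀ y : A → ℝ, (∀ ρ, 0 ≤ (g ρ : ℝ) + ∑ i, y i * ((a i ρ : ℝ) - b i ρ)) →
      (∃ ρ, (g ρ : ℝ) + ∑ i, y i * ((a i ρ : ℝ) - b i ρ) = 0) →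
      ∃ i, ¬ ((∀ ρ, (g ρ : ℝ) + ∑ l, y l * ((a l ρ : ℝ) - b l ρ) = 0 → a i ρ = 0) ↔
        ∀ ρ, (g ρ : ℝ) + ∑ l, y l * ((a l ρ : ℝ) - b l ρ) = 0 → b i ρ = 0)) :
    (∏ i, li lam a b g (lam i)) * ∏ i, li lam a b g (fun ρ => (a i ρ : ℚ)) ≠ 0 := by
  have h1 : (∏ i, li lam a b g (lam i)) * ∏ i, li lam a b g (fun ρ => (a i ρ : ℚ))
      = pr2 lam a b g ((∏ i, lf lam i) * ∏ i, lfn a i) := by
    rw [map_mul, map_prod, map_prod]
    congr 1
    · exact Finset.prod_congr rfl fun i _ => li_lam lam a b g i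
    · exact Finset.prod_congr rfl fun i _ => li_nat lam a b g a i
  rw [h1, Ne, pr2_zero]
  exact hA P A W lam a b g hg hb hs

end ring

/-! ### real points -/

section real

variable {σ : Type} [Fintype σ] {M : Finset (σ →₀ ℕ)}

/-- the main identity -/
theorem keyR (u : σ → ℝ) (N : ℝ) {t : M → ℤ} {l : ℤ} {w : σ → ℤ} (hl : ∑ α, t α = l)
    (hw : ∀ j, ∑ α, t α * ((α : σ →₀ ℕ) j : ℤ) = w j) :
    ∑ j, u j * (w j : ℝ) = N * l + ∑ α : M, (t α : ℝ) * (dot u (α : σ →₀ ℕ) - N) := by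
  have h1 : ∑ α : M, (t α : ℝ) * (dot u (α : σ →₀ ℕ) - N)
      = ∑ α : M, (t α : ℝ) * dot u (α : σ →₀ ℕ) - N * l := by
    simp_rw [mul_sub, Finset.sum_sub_distrib]
    congr 1
    rw [← Finset.sum_mul, ← hl]
    push_cast
    ring
  rw [h1, add_sub_cancel]
  unfold dot
  simp_rw [← hw]
  push_cast
  simp_rw [Finset.mul_sum]
  rw [Finset.sum_comm]
  refine Finset.sum_congr rfl fun α _ => Finset.sum_congr rfl fun j _ => ?_
  ring

/-- the independence of the monomials without excess -/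
theorem indepR (hS : Simplicial M) {u : σ → ℝ} {N : ℝ} (hN : 0 < N) (hu : ∀ j, 0 ≤ u j)
    (he : ∀ α ∈ M, 0 ≤ dot u α - N) {t : M → ℤ}
    (ht : ∀ j, ∑ α, t α * ((α : σ →₀ ℕ) j : ℤ) = 0)
    (h0 : ∀ α : M, 0 < dot u (α : σ →₀ ℕ) - N → t α = 0) : t = 0 := by
  classical
  by_cases hex : ∃ α₁ ∈ M, dot u α₁ - N = 0
  · obtain ⟨α₁, hα₁, hα₁'⟩ := hex
    have h1 := hS u hu (fun α hα => by
      have := he α hα
      linarith)
    have hface : ∀ α : M, dot u (α : σ →₀ ℕ) - N = 0 → (α : σ →₀ ℕ) ∈ face M u := by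
      intro α hα
      refine ⟨α.2, fun β hβ => ?_⟩
      have := he β hβ
      linarith
    have hface' : ∀ α : M, (α : σ →₀ ℕ) ∈ face M u → dot u (α : σ →₀ ℕ) - N = 0 := by
      intro α hα
      have h2 := hα.2 α₁ hα₁
      have h3 := he α α.2
      linarith
    have hfin : Finite (face M u) := Set.Finite.subset M.finite_toSet fun α hα => hα.1
    have hft : Fintype (face M u) := Fintype.ofFinite _
    rw [Fintype.linearIndependent_iff] at h1
    have h2 := h1 (fun α => (t ⟨α.1, α.2.1⟩ : ℝ)) (by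
      funext j
      rw [Finset.sum_apply]
      simp only [Pi.smul_apply, smul_eq_mul, Pi.zero_apply]
      have h3 := congrArg (fun z : ℤ => (z : ℝ)) (ht j)
      simp only [Int.cast_sum, Int.cast_mul, Int.cast_natCast, Int.cast_zero] at h3
      rw [← h3]
      have h4 : ∑ α : M, (t α : ℝ) * (((α : σ →₀ ℕ) j : ℕ) : ℝ)
          = ∑ α ∈ Finset.univ.filter (fun α : M => (α : σ →₀ ℕ) ∈ face M u),
            (t α : ℝ) * (((α : σ →₀ ℕ) j : ℕ) : ℝ) := by
        symm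
        refine Finset.sum_subset (Finset.subset_univ _) fun α _ hα => ?_
        rw [Finset.mem_filter, not_and] at hα
        have h5 := hα (Finset.mem_univ _)
        have h6 : 0 < dot u (α : σ →₀ ℕ) - N :=
          lt_of_le_of_ne (he α α.2) fun h => h5 (hface α h.symm)
        rw [h0 α h6, Int.cast_zero, zero_mul]
      rw [h4]
      refine Finset.sum_bij' (fun α _ => ⟨α.1, α.2.1⟩) (fun α hα => ⟨α.1, (Finset.mem_filter.1 hα).2⟩)
        ?_ ?_ ?_ ?_ ?_
      · intro α _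
        exact Finset.mem_filter.2 ⟨Finset.mem_univ _, α.2⟩
      · intro α _
        exact Finset.mem_univ _
      · intro α _; rfl
      · intro α _; rfl
      · intro α _; rfl)
    funext α
    by_cases h3 : dot u (α : σ →₀ ℕ) - N = 0
    · have := h2 ⟨α.1, hface α h3⟩
      simpa using this
    · exact h0 α (lt_of_le_of_ne (he α α.2) (Ne.symm h3))
  · push Not at hex
    funext α
    exact h0 α (lt_of_le_of_ne (he α α.2) (Ne.symm (hex α α.2)))

end real

/-- the data of a flat cell -/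
structure BE {σ : Type} [Fintype σ] (M : Finset (σ →₀ ℕ)) (κ : σ → ℕ) where
  D : FD M κ
  m : (σ →₀ ℕ) → ℂ
  lam : (σ →₀ ℕ) → σ → ℚ
  m_zero : ∀ α, α ∉ face M κ → m α = 0
  lam_zero : ∀ α, α ∉ face M κ → ∀ j, lam α j = 0
  lamJ : ∀ α j, κ j = 0 → lam α j = 0
  sum_m : ∀ j, κ j ≠ 0 → ∑ α ∈ M, m α * (α j : ℂ) = -1
  sec : ∀ β ∈ face M κ, ∀ j, κ j ≠ 0 →
    ∑ α ∈ M, (∑ i, lam α i * (β i : ℚ)) * (α j : ℚ) = (β j : ℚ)
  forced : ∀ α ∈ face M κ, (∃ n : ℤ, m α = n) → (∑ j, lam α j * (α j : ℚ) = 1) ∧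
    ∀ β ∈ face M κ, β ≠ α → ∑ j, lam α j * (β j : ℚ) = 0
  apex : ∀ A ∈ D.Ap, ∀ v : σ → ℚ, ∑ j, lam A j * v j = v (D.j1 A)
  simp : Simplicial M

theorem exists_BE (hB : BData2Stmt) {σ : Type} [Fintype σ] {M : Finset (σ →₀ ℕ)} {κ : σ → ℕ}
    (hS : Simplicial M) (D : FD M κ) : ∃ B : BE M κ, B.D = D := by
  classical
  obtain ⟨m, lam, h1, h2, h3, h4, h5⟩ := hB σ M κ D.flat
  -- the multiplicity of an apex
  have hm : ∀ A ∈ D.Ap, m A = ((-1 : ℤ) : ℂ) := by
    intro A hA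
    obtain ⟨h6, -, h8, -⟩ := D.ap A hA
    have h9 := h3 (D.j1 A) h8.1
    rw [Finset.sum_eq_single A] at h9
    · rw [h8.2.1] at h9
      push_cast at h9 ⊢
      simpa using h9
    · intro β _ hβ
      by_cases hf : β ∈ face M κ
      · rw [h8.2.2 β hf hβ]
        simp
      · rw [(h1 β hf).1, zero_mul]
    · intro h; exact absurd h6.1 h
  let lam' : (σ →₀ ℕ) → σ → ℚ := fun α => if α ∈ D.Ap then Pi.single (D.j1 α) 1 else lam α
  have hdot : ∀ A ∈ D.Ap, ∀ v : σ → ℚ, ∑ j, lam' A j * v j = v (D.j1 A) := by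
    intro A hA v
    have : lam' A = Pi.single (D.j1 A) 1 := if_pos hA
    rw [this, Finset.sum_eq_single (D.j1 A)]
    · rw [Pi.single_eq_same, one_mul]
    · intro j _ hj
      rw [Pi.single_eq_of_ne hj, zero_mul]
    · intro h; exact absurd (Finset.mem_univ _) h
  have hsame : ∀ α, ∀ β ∈ face M κ, ∑ j, lam' α j * (β j : ℚ) = ∑ j, lam α j * (β j : ℚ) := by
    intro α β hβ
    by_cases hA : α ∈ D.Ap
    · obtain ⟨h6, -, h8, -⟩ := D.ap α hA
      have h9 := h5 α h6 ⟨-1, hm α hA⟩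
      rw [hdot α hA (fun j => (β j : ℚ))]
      by_cases hβα : β = α
      · rw [hβα, h9.1, h8.2.1, Nat.cast_one]
      · rw [h9.2 β hβ hβα, h8.2.2 β hβ hβα, Nat.cast_zero]
    · have : lam' α = lam α := if_neg hA
      rw [this]
  refine ⟨⟨D, m, lam', fun α hα => (h1 α hα).1, fun α hα j => ?_, fun α j hj => ?_, h3,
    fun β hβ j hj => ?_, fun α hα hn => ⟨?_, fun β hβ hne => ?_⟩, hdot, hS⟩, rfl⟩
  · have h6 : α ∉ D.Ap := fun h => hα (D.ap α h).1
    have : lam' α = lam α := if_neg h6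
    rw [this]
    exact (h1 α hα).2 j
  · by_cases hA : α ∈ D.Ap
    · have : lam' α = Pi.single (D.j1 α) 1 := if_pos hA
      rw [this, Pi.single_eq_of_ne]
      rintro rfl
      exact (D.ap α hA).2.2.1.1 hj
    · have : lam' α = lam α := if_neg hA
      rw [this]
      exact h2 α j hj
  · rw [← h4 β hβ j hj]
    exact Finset.sum_congr rfl fun α _ => by rw [hsame α β hβ]
  · rw [hsame α α hα]
    exact (h5 α hα hn).1
  · rw [hsame α β hβ]
    exact (h5 α hα hn).2 β hβ hne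

end Pool.Agent.Helper30_Simp2
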