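import Pool.Agent.Helper30_Simp2.CoreA

/-!
# The polyhedron of a flat cell
-/

set_option autoImplicit false
set_option linter.unusedVariables false
set_option linter.unusedSectionVars false

namespace Pool.Agent.Helper30_Simp2

open MvPolynomial Pool.Agent.Helper6_Mono Pool.Agent.Helper30_Simp

namespace BE

variable {σ : Type} [Fintype σ] {M : Finset (σ →₀ ℕ)} {κ : σ → ℕ} (B : BE M κ)

open scoped Classical

/-- the value of the cell -/
abbrev N : ℕ := B.D.N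

/-- the resonant monomials -/
noncomputable def Pf : Finset (σ →₀ ℕ) :=
  M.filter fun α => α ∈ face M κ ∧ ∃ n : ℤ, n < 0 ∧ B.m α = n

/-- the resonant monomials which are not apexes -/
noncomputable def Pq : Finset (σ →₀ ℕ) := B.Pf \ B.D.Ap

/-- the apexes -/
abbrev Aq : Finset (σ →₀ ℕ) := B.D.Ap

/-- the monomials outside the face -/
noncomputable def Hf (_B : BE M κ) : Finset (σ →₀ ℕ) := M.filter fun α => α ∉ face M κ

/-- the variables with positive weight -/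
noncomputable def Jf (_B : BE M κ) : Finset σ := Finset.univ.filter fun j => κ j ≠ 0

/-- the walls -/
abbrev Wl : Type := B.Jf ⊕ B.Hf

/-- the values of a vector on the walls -/
noncomputable def wq (v : σ → ℚ) : B.Wl → ℚ
  | Sum.inl j => v j
  | Sum.inr β => ∑ j, v j * ((β : σ →₀ ℕ) j : ℚ)

/-- the values of the walls at `κ` -/
noncomputable def gW : B.Wl → ℚ
  | Sum.inl j => (κ j : ℚ)
  | Sum.inr β => ((dot κ (β : σ →₀ ℕ) : ℕ) : ℚ) - B.N

/-- the slopes of the walls -/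
noncomputable def lW (i : B.Pq) : B.Wl → ℚ := B.wq (B.lam i)

/-- the values of a unit vector on the walls -/
noncomputable def un (j : σ) : B.Wl → ℕ
  | Sum.inl i => if (i : σ) = j then 1 else 0
  | Sum.inr β => (β : σ →₀ ℕ) j

/-- the first direction of an apex -/
noncomputable def aW (i : B.Aq) : B.Wl → ℕ := B.un (B.D.j1 i)

/-- the second direction of an apex -/
noncomputable def bW (i : B.Aq) : B.Wl → ℕ := B.un (B.D.j2 i)

theorem face_iff (α : σ →₀ ℕ) : α ∈ face M κ ↔ α ∈ M ∧ dot κ α = B.N := by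
  obtain ⟨β, hβ, hβ'⟩ := B.D.ex
  constructor
  · intro h
    refine ⟨h.1, le_antisymm ?_ (B.D.ge α h.1)⟩
    show dot κ α ≤ B.D.N
    rw [← hβ']
    exact h.2 β hβ
  · rintro ⟨h1, h2⟩
    refine ⟨h1, fun γ hγ => ?_⟩
    rw [h2]
    exact B.D.ge γ hγ

theorem mem_Pf {α : σ →₀ ℕ} : α ∈ B.Pf ↔ α ∈ face M κ ∧ ∃ n : ℤ, n < 0 ∧ B.m α = n := by
  unfold Pf
  rw [Finset.mem_filter]
  exact ⟨fun h => h.2, fun h => ⟨h.1.1, h⟩⟩

theorem mem_Pq {α : σ →₀ ℕ} : α ∈ B.Pq ↔ α ∈ B.Pf ∧ α ∉ B.D.Ap := by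
  unfold Pq
  rw [Finset.mem_sdiff]

theorem mem_Hf {α : σ →₀ ℕ} : α ∈ B.Hf ↔ α ∈ M ∧ α ∉ face M κ := by
  unfold Hf
  rw [Finset.mem_filter]

theorem mem_Jf {j : σ} : j ∈ B.Jf ↔ κ j ≠ 0 := by
  unfold Jf
  simp

theorem Aq_m {A : σ →₀ ℕ} (hA : A ∈ B.Aq) : B.m A = ((-1 : ℤ) : ℂ) := by
  obtain ⟨h6, -, h8, -⟩ := B.D.ap A hA
  have h9 := B.sum_m (B.D.j1 A) h8.1
  rw [Finset.sum_eq_single A] at h9
  · rw [h8.2.1] at h9
    push_cast at h9 ⊢
    simpa using h9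
  · intro β _ hβ
    by_cases hf : β ∈ face M κ
    · rw [h8.2.2 β hf hβ]
      simp
    · rw [B.m_zero β hf, zero_mul]
  · intro h; exact absurd h6.1 h

theorem Aq_Pf {A : σ →₀ ℕ} (hA : A ∈ B.Aq) : A ∈ B.Pf :=
  B.mem_Pf.2 ⟨(B.D.ap A hA).1, -1, by norm_num, B.Aq_m hA⟩

/-- the integral multiplicity -/
noncomputable def nn (i : B.Pf) : ℤ := (B.mem_Pf.1 i.2).2.choose

theorem nn_neg (i : B.Pf) : B.nn i < 0 := (B.mem_Pf.1 i.2).2.choose_spec.1

theorem nn_eq (i : B.Pf) : B.m i = B.nn i := (B.mem_Pf.1 i.2).2.choose_spec.2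

theorem gW_pos (ρ : B.Wl) : 0 < B.gW ρ := by
  rcases ρ with j | β
  · have := B.mem_Jf.1 j.2
    show (0 : ℚ) < (κ j : ℚ)
    exact_mod_cast Nat.pos_of_ne_zero this
  · have h1 := B.mem_Hf.1 β.2
    have h2 := B.D.ge _ h1.1
    have h3 : dot κ (β : σ →₀ ℕ) ≠ B.N := fun h => h1.2 ((B.face_iff _).2 ⟨h1.1, h⟩)
    have h4 : B.N < dot κ (β : σ →₀ ℕ) := lt_of_le_of_ne h2 (Ne.symm h3)
    show (0 : ℚ) < ((dot κ (β : σ →₀ ℕ) : ℕ) : ℚ) - B.N
    have : (B.N : ℚ) < ((dot κ (β : σ →₀ ℕ) : ℕ) : ℚ) := by exact_mod_cast h4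
    linarith

/-- the dual basis property on the face -/
theorem forced_eq (i : B.Pf) {β : σ →₀ ℕ} (hβ : β ∈ face M κ) :
    ∑ j, B.lam i j * (β j : ℚ) = if β = i then 1 else 0 := by
  have h1 := B.mem_Pf.1 i.2
  have h2 := B.forced i h1.1 ⟨h1.2.choose, h1.2.choose_spec.2⟩
  split_ifs with h
  · rw [h]; exact h2.1
  · exact h2.2 β hβ h

/-- the directions on the face -/
theorem dir1_eq {A : σ →₀ ℕ} (hA : A ∈ B.Aq) {β : σ →₀ ℕ} (hβ : β ∈ face M κ) :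
    β (B.D.j1 A) = if β = A then 1 else 0 := by
  obtain ⟨h6, -, h8, h9⟩ := B.D.ap A hA
  split_ifs with h
  · rw [h]; exact h8.2.1
  · exact h8.2.2 β hβ h

theorem dir2_eq {A : σ →₀ ℕ} (hA : A ∈ B.Aq) {β : σ →₀ ℕ} (hβ : β ∈ face M κ) :
    β (B.D.j2 A) = if β = A then 1 else 0 := by
  obtain ⟨h6, -, h8, h9⟩ := B.D.ap A hA
  split_ifs with h
  · rw [h]; exact h9.2.1
  · exact h9.2.2 β hβ h

/-! ### weight vectors -/

/-- the weight vector with parameters `c`, `e`, `y` -/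
noncomputable def uu (c : B.Pq → ℝ) (e y : B.Aq → ℝ) (j : σ) : ℝ :=
  (κ j : ℝ) + ∑ i, c i * (B.lam i j : ℝ) +
    ∑ i, ((y i + e i) * (if j = B.D.j1 i then 1 else 0) - y i * (if j = B.D.j2 i then 1 else 0))

/-- the excess -/
noncomputable def ee (c : B.Pq → ℝ) (e y : B.Aq → ℝ) (α : σ →₀ ℕ) : ℝ :=
  dot (B.uu c e y) α - B.N

theorem uu_J (c : B.Pq → ℝ) (e y : B.Aq → ℝ) {j : σ} (h : κ j = 0) : B.uu c e y j = 0 := by
  unfold uu
  have h1 : ∀ i : B.Aq, ((y i + e i) * (if j = B.D.j1 i then 1 else 0)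
      - y i * (if j = B.D.j2 i then 1 else 0) : ℝ) = 0 := by
    intro i
    obtain ⟨-, -, h8, h9⟩ := B.D.ap i i.2
    rw [if_neg (by rintro rfl; exact h8.1 h), if_neg (by rintro rfl; exact h9.1 h)]
    ring
  rw [h, Finset.sum_congr rfl fun i _ => h1 i]
  simp [B.lamJ _ j h]

theorem dot_uu (c : B.Pq → ℝ) (e y : B.Aq → ℝ) (α : σ →₀ ℕ) : dot (B.uu c e y) α
    = ((dot κ α : ℕ) : ℝ) + ∑ i, c i * ((∑ j, B.lam i j * (α j : ℚ) : ℚ) : ℝ)
      + ∑ i : B.Aq, ((y i + e i) * ((α (B.D.j1 i) : ℕ) : ℝ) - y i * ((α (B.D.j2 i) : ℕ) : ℝ)) := by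
  unfold dot uu
  have h1 : ∀ j : σ, ((κ j : ℝ) + ∑ i, c i * (B.lam i j : ℝ) +
      ∑ i : B.Aq, ((y i + e i) * (if j = B.D.j1 i then 1 else 0)
        - y i * (if j = B.D.j2 i then 1 else 0))) * ((α j : ℕ) : ℝ)
      = (κ j : ℝ) * ((α j : ℕ) : ℝ) + (∑ i, c i * ((B.lam i j : ℝ) * ((α j : ℕ) : ℝ)))
        + ∑ i : B.Aq, ((y i + e i) * (if j = B.D.j1 i then ((α j : ℕ) : ℝ) else 0)
          - y i * (if j = B.D.j2 i then ((α j : ℕ) : ℝ) else 0)) := by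
    intro j
    rw [add_mul, add_mul, Finset.sum_mul, Finset.sum_mul]
    congr 1
    · congr 1
      exact Finset.sum_congr rfl fun i _ => by ring
    · refine Finset.sum_congr rfl fun i _ => ?_
      split_ifs <;> ring
  rw [Finset.sum_congr rfl fun j _ => h1 j, Finset.sum_add_distrib, Finset.sum_add_distrib]
  congr 1
  · congr 1
    · push_cast
      rfl
    · rw [Finset.sum_comm]
      refine Finset.sum_congr rfl fun i _ => ?_
      push_cast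
      rw [Finset.mul_sum]
  · rw [Finset.sum_comm]
    refine Finset.sum_congr rfl fun i _ => ?_
    rw [Finset.sum_sub_distrib, ← Finset.mul_sum, ← Finset.mul_sum, Finset.sum_ite_eq',
      Finset.sum_ite_eq', if_pos (Finset.mem_univ _), if_pos (Finset.mem_univ _)]

theorem aW_inl (i : B.Aq) (j : B.Jf) :
    (B.aW i (Sum.inl j) : ℝ) = if (j : σ) = B.D.j1 i then 1 else 0 := by
  show ((if (j : σ) = B.D.j1 i then 1 else 0 : ℕ) : ℝ) = _
  split_ifs <;> simp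

theorem bW_inl (i : B.Aq) (j : B.Jf) :
    (B.bW i (Sum.inl j) : ℝ) = if (j : σ) = B.D.j2 i then 1 else 0 := by
  show ((if (j : σ) = B.D.j2 i then 1 else 0 : ℕ) : ℝ) = _
  split_ifs <;> simp

theorem uu_wall (c : B.Pq → ℝ) (e y : B.Aq → ℝ) (j : B.Jf) :
    (B.gW (Sum.inl j) : ℝ) + ∑ i, c i * (B.lW i (Sum.inl j) : ℝ)
      + ∑ i, ((y i + e i) * (B.aW i (Sum.inl j) : ℝ) - y i * (B.bW i (Sum.inl j) : ℝ))
      = B.uu c e y j := by
  simp_rw [aW_inl, bW_inl]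
  show (((κ j : ℕ) : ℚ) : ℝ) + ∑ i, c i * (B.lam i j : ℝ) + _ = _
  unfold uu
  push_cast
  rfl

theorem ee_wall (c : B.Pq → ℝ) (e y : B.Aq → ℝ) (β : B.Hf) :
    (B.gW (Sum.inr β) : ℝ) + ∑ i, c i * (B.lW i (Sum.inr β) : ℝ)
      + ∑ i, ((y i + e i) * (B.aW i (Sum.inr β) : ℝ) - y i * (B.bW i (Sum.inr β) : ℝ))
      = B.ee c e y β := by
  unfold ee
  rw [dot_uu]
  show ((((dot κ (β : σ →₀ ℕ) : ℕ) : ℚ) - (B.N : ℚ) : ℚ) : ℝ)
    + ∑ i, c i * ((∑ j, B.lam i j * ((β : σ →₀ ℕ) j : ℚ) : ℚ) : ℝ)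
    + ∑ i : B.Aq, ((y i + e i) * (((β : σ →₀ ℕ) (B.D.j1 i) : ℕ) : ℝ)
      - y i * (((β : σ →₀ ℕ) (B.D.j2 i) : ℕ) : ℝ)) = _
  push_cast
  ring

theorem ee_face (c : B.Pq → ℝ) (e y : B.Aq → ℝ) {α : σ →₀ ℕ} (hα : α ∈ face M κ) :
    B.ee c e y α = (∑ i : B.Pq, if α = i then c i else 0)
      + ∑ i : B.Aq, if α = i then e i else 0 := by
  unfold ee
  rw [dot_uu, ((B.face_iff α).1 hα).2]
  have h1 : ∑ i, c i * ((∑ j, B.lam i j * (α j : ℚ) : ℚ) : ℝ)
      = ∑ i : B.Pq, if α = i then c i else 0 := by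
    refine Finset.sum_congr rfl fun i _ => ?_
    rw [B.forced_eq ⟨i, (B.mem_Pq.1 i.2).1⟩ hα]
    split_ifs
    · simp
    · simp
  have h2 : ∑ i : B.Aq, ((y i + e i) * ((α (B.D.j1 i) : ℕ) : ℝ)
      - y i * ((α (B.D.j2 i) : ℕ) : ℝ)) = ∑ i : B.Aq, if α = i then e i else 0 := by
    refine Finset.sum_congr rfl fun i _ => ?_
    rw [B.dir1_eq i.2 hα, B.dir2_eq i.2 hα]
    split_ifs
    · simp
    · simp
  rw [h1, h2]
  ring

theorem ee_Pq (c : B.Pq → ℝ) (e y : B.Aq → ℝ) (i : B.Pq) : B.ee c e y i = c i := by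
  have hi := B.mem_Pq.1 i.2
  rw [B.ee_face c e y (B.mem_Pf.1 hi.1).1, Finset.sum_eq_single i]
  · rw [if_pos rfl, Finset.sum_eq_zero, add_zero]
    intro b _
    rw [if_neg]
    intro h
    exact hi.2 (h ▸ b.2)
  · intro b _ hb
    rw [if_neg]
    intro h
    exact hb (Subtype.ext h.symm)
  · intro h; exact absurd (Finset.mem_univ _) h

theorem ee_Aq (c : B.Pq → ℝ) (e y : B.Aq → ℝ) (i : B.Aq) : B.ee c e y i = e i := by
  rw [B.ee_face c e y (B.D.ap i i.2).1, Finset.sum_eq_zero, zero_add, Finset.sum_eq_single i]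
  · rw [if_pos rfl]
  · intro b _ hb
    rw [if_neg]
    intro h
    exact hb (Subtype.ext h.symm)
  · intro h; exact absurd (Finset.mem_univ _) h
  · intro b _
    rw [if_neg]
    intro h
    exact (B.mem_Pq.1 b.2).2 (h ▸ i.2)

theorem ee_face_not (c : B.Pq → ℝ) (e y : B.Aq → ℝ) {α : σ →₀ ℕ} (hα : α ∈ face M κ)
    (h : α ∉ B.Pf) : B.ee c e y α = 0 := by
  rw [B.ee_face c e y hα, Finset.sum_eq_zero, Finset.sum_eq_zero, add_zero]
  · intro i _
    rw [if_neg]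
    rintro rfl
    exact h (B.Aq_Pf i.2)
  · intro i _
    rw [if_neg]
    rintro rfl
    exact h (B.mem_Pq.1 i.2).1

/-- the conditions of a face -/
def Fc (D : Finset B.Pf) (A : Finset B.Jf) (H : Finset B.Hf) (u : σ → ℝ) : Prop :=
  (∀ i : B.Pf, 0 ≤ dot u (i : σ →₀ ℕ) - B.N) ∧ (∀ i : B.Pf, i ∉ D → dot u (i : σ →₀ ℕ) - B.N = 0) ∧
    (∀ j, 0 ≤ u j) ∧ (∀ j, κ j = 0 → u j = 0) ∧ (∀ α ∈ M, 0 ≤ dot u α - B.N) ∧
    (∀ α ∈ face M κ, α ∉ B.Pf → dot u α - B.N = 0) ∧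
    (∀ j ∈ A, u j = 0) ∧ ∀ β ∈ H, dot u (β : σ →₀ ℕ) - B.N = 0

theorem exists_Fc {D : Finset B.Pf} {A : Finset B.Jf} {H : Finset B.Hf} {D₁ : Finset B.Pq}
    {D₂ : Finset B.Aq} (hD₁ : ∀ i (hi : i ∈ B.Pq), ⟨i, hi⟩ ∈ D₁ → ⟨i, (B.mem_Pq.1 hi).1⟩ ∈ D)
    (hD₂ : ∀ i (hi : i ∈ B.Aq), ⟨i, hi⟩ ∈ D₂ → ⟨i, B.Aq_Pf hi⟩ ∈ D)
    (h : IsFace2 B.lW B.aW B.bW B.gW D₁ D₂ (A.disjSum H)) : ∃ u, B.Fc D A H u := by
  obtain ⟨c, e, y, h1, h2, h3, h4, h5, h6⟩ := h
  have hP : ∀ i : B.Pf, 0 ≤ B.ee c e y i ∧ (i ∉ D → B.ee c e y i = 0) := by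
    intro i
    by_cases hA : (i : σ →₀ ℕ) ∈ B.Aq
    · have := B.ee_Aq c e y ⟨i, hA⟩
      have h7 : B.ee c e y i = e ⟨i, hA⟩ := this
      rw [h7]
      refine ⟨h3 _, fun hi => h4 _ fun h8 => hi (hD₂ _ hA h8)⟩
    · have hq : (i : σ →₀ ℕ) ∈ B.Pq := B.mem_Pq.2 ⟨i.2, hA⟩
      have h7 : B.ee c e y i = c ⟨i, hq⟩ := B.ee_Pq c e y ⟨i, hq⟩
      rw [h7]
      refine ⟨h1 _, fun hi => h2 _ fun h8 => hi (hD₁ _ hq h8)⟩
  refine ⟨B.uu c e y, fun i => (hP i).1, fun i hi => (hP i).2 hi, fun j => ?_,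
    fun j hj => B.uu_J c e y hj, fun α hα => ?_, fun α hα hn => B.ee_face_not c e y hα hn,
    fun j hj => ?_, fun β hβ => ?_⟩
  · by_cases hj : κ j = 0
    · rw [B.uu_J c e y hj]
    · have := h5 (Sum.inl ⟨j, B.mem_Jf.2 hj⟩)
      rwa [B.uu_wall] at this
  · by_cases hf : α ∈ face M κ
    · by_cases hp : α ∈ B.Pf
      · exact (hP ⟨α, hp⟩).1
      · exact (B.ee_face_not c e y hf hp).ge
    · have := h5 (Sum.inr ⟨α, B.mem_Hf.2 ⟨hα, hf⟩⟩)
      rwa [B.ee_wall] at this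
  · have := h6 (Sum.inl j) (Finset.inl_mem_disjSum.2 hj)
    rwa [B.uu_wall] at this
  · have := h6 (Sum.inr β) (Finset.inr_mem_disjSum.2 hβ)
    rwa [B.ee_wall] at this

/-- the polytope is bounded, since all directions belong to apexes -/
theorem bounded (c : B.Pq → ℝ) (y : B.Aq → ℝ) (hc : ∀ i, 0 ≤ c i)
    (h : ∀ ρ, 0 ≤ ∑ i, c i * (B.lW i ρ : ℝ) + ∑ i, y i * ((B.aW i ρ : ℝ) - B.bW i ρ)) :
    c = 0 ∧ y = 0 := by
  classical
  -- the vector v
  set v : σ → ℝ := fun j => B.uu c 0 y j - κ j with hvdef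
  have hveq : ∀ j, v j = ∑ i, c i * (B.lam i j : ℝ) +
      ∑ i : B.Aq, y i * ((if j = B.D.j1 i then 1 else 0) - (if j = B.D.j2 i then 1 else 0)) := by
    intro j
    show B.uu c 0 y j - κ j = _
    unfold uu
    rw [add_assoc, add_sub_cancel_left]
    congr 1
    refine Finset.sum_congr rfl fun i _ => ?_
    rw [Pi.zero_apply]
    ring
  have hvJ : ∀ j, κ j = 0 → v j = 0 := by
    intro j hj
    show B.uu c 0 y j - κ j = 0
    rw [B.uu_J c 0 y hj, hj]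
    simp
  have hv : ∀ j, 0 ≤ v j := by
    intro j
    by_cases hj : κ j = 0
    · rw [hvJ j hj]
    · have h1 := h (Sum.inl ⟨j, B.mem_Jf.2 hj⟩)
      have h2 := B.uu_wall c 0 y ⟨j, B.mem_Jf.2 hj⟩
      have h3 : v j = ∑ i, c i * (B.lW i (Sum.inl ⟨j, B.mem_Jf.2 hj⟩) : ℝ)
          + ∑ i, y i * ((B.aW i (Sum.inl ⟨j, B.mem_Jf.2 hj⟩) : ℝ)
            - B.bW i (Sum.inl ⟨j, B.mem_Jf.2 hj⟩)) := by
        show B.uu c 0 y j - κ j = _
        have h4 : B.uu c 0 y j = B.uu c 0 y ((⟨j, B.mem_Jf.2 hj⟩ : B.Jf) : σ) := rfl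
        rw [h4, ← h2]
        have h5 : (B.gW (Sum.inl ⟨j, B.mem_Jf.2 hj⟩) : ℝ) = (κ j : ℝ) := by
          show (((κ j : ℕ) : ℚ) : ℝ) = _
          push_cast; rfl
        rw [h5, add_assoc, add_sub_cancel_left]
        congr 1
        refine Finset.sum_congr rfl fun i _ => ?_
        rw [Pi.zero_apply]
        ring
      rw [h3]
      exact h1
  have hvα : ∀ α ∈ face M κ, ∑ j, v j * (α j : ℝ) = ∑ i : B.Pq, if α = i then c i else 0 := by
    intro α hα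
    have h1 := B.ee_face c 0 y hα
    have h2 : ∑ i : B.Aq, (if α = i then (0 : B.Aq → ℝ) i else 0) = 0 :=
      Finset.sum_eq_zero fun i _ => by simp
    rw [h2, add_zero] at h1
    rw [← h1]
    show ∑ j, (B.uu c 0 y j - κ j) * (α j : ℝ) = dot (B.uu c 0 y) α - B.N
    rw [← ((B.face_iff α).1 hα).2]
    unfold dot
    push_cast
    rw [← Finset.sum_sub_distrib]
    exact Finset.sum_congr rfl fun j _ => by ring
  -- v = 0
  have hv0 : ∀ j, v j = 0 := by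
    by_contra hne
    push Not at hne
    obtain ⟨j, hj0⟩ := hne
    have hj : 0 < v j := lt_of_le_of_ne (hv j) (Ne.symm hj0)
    have hκj : κ j ≠ 0 := fun h' => hj0 (hvJ j h')
    -- monomials of the face with c = 0 do not contain x_j
    have hz : ∀ α ∈ face M κ, α ∉ B.Pq → α j = 0 := by
      intro α hα hn
      have h1 : ∑ l, v l * (α l : ℝ) = 0 := by
        rw [hvα α hα]
        refine Finset.sum_eq_zero fun i _ => ?_
        rw [if_neg]
        rintro rfl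
        exact hn i.2
      have h2 := (Finset.sum_eq_zero_iff_of_nonneg (fun l _ => mul_nonneg (hv l)
        (Nat.cast_nonneg _))).1 h1 j (Finset.mem_univ _)
      rcases mul_eq_zero.1 h2 with h3 | h3
      · exact absurd h3 hj.ne'
      · exact_mod_cast h3
    -- the equation for the variable j
    have hsum := B.sum_m j hκj
    let n' : (σ →₀ ℕ) → ℤ := fun α => if h : α ∈ B.Pq then B.nn ⟨α, (B.mem_Pq.1 h).1⟩ else 0
    have hn' : ∀ α ∈ M, B.m α * (α j : ℂ) = ((n' α * (α j : ℤ) : ℤ) : ℂ) := by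
      intro α hα
      by_cases h1 : α ∈ B.Pq
      · have h2 : n' α = B.nn ⟨α, (B.mem_Pq.1 h1).1⟩ := dif_pos h1
        have h3 := B.nn_eq ⟨α, (B.mem_Pq.1 h1).1⟩
        rw [h2]
        push_cast
        rw [← h3]
      · have h2 : n' α = 0 := dif_neg h1
        rw [h2]
        by_cases h3 : α ∈ face M κ
        · rw [hz α h3 h1]
          simp
        · rw [B.m_zero α h3]
          simp
    rw [Finset.sum_congr rfl hn', ← Int.cast_sum] at hsum
    have hsum' : ∑ α ∈ M, -(n' α * (α j : ℤ)) = 1 := by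
      rw [Finset.sum_neg_distrib]
      have : (∑ α ∈ M, n' α * (α j : ℤ)) = -1 := by
        have h9 : ((∑ α ∈ M, n' α * (α j : ℤ) : ℤ) : ℂ) = ((-1 : ℤ) : ℂ) := by
          rw [hsum]; norm_num
        exact_mod_cast h9
      rw [this]
      ring
    have hnn : ∀ α ∈ M, 0 ≤ -(n' α * (α j : ℤ)) := by
      intro α hα
      by_cases h1 : α ∈ B.Pq
      · have h2 : n' α = B.nn ⟨α, (B.mem_Pq.1 h1).1⟩ := dif_pos h1
        have h3 := B.nn_neg ⟨α, (B.mem_Pq.1 h1).1⟩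
        rw [h2]
        have : (0 : ℤ) ≤ (α j : ℤ) := Int.natCast_nonneg _
        nlinarith
      · have h2 : n' α = 0 := dif_neg h1
        rw [h2]
        simp
    obtain ⟨α₁, hα₁, h1⟩ : ∃ α₁ ∈ M, -(n' α₁ * (α₁ j : ℤ)) ≠ 0 := by
      by_contra h'
      push Not at h'
      rw [Finset.sum_eq_zero h'] at hsum'
      exact zero_ne_one hsum'
    have h2 : -(n' α₁ * (α₁ j : ℤ)) = 1 ∧ ∑ α ∈ M.erase α₁, -(n' α * (α j : ℤ)) = 0 := by
      have h3 := Finset.add_sum_erase M (fun α => -(n' α * (α j : ℤ))) hα₁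
      have h4 : 0 ≤ ∑ α ∈ M.erase α₁, -(n' α * (α j : ℤ)) :=
        Finset.sum_nonneg fun α hα => hnn α (Finset.mem_of_mem_erase hα)
      have h5 := hnn α₁ hα₁
      rw [hsum'] at h3
      constructor <;> omega
    have h3 : α₁ ∈ B.Pq := by
      by_contra h'
      have : n' α₁ = 0 := dif_neg h'
      rw [this] at h1
      simp at h1
    have h4 : α₁ j = 1 := by
      have h5 : n' α₁ * (α₁ j : ℤ) = -1 := by omega
      have h6 : ((α₁ j : ℕ) : ℤ) ∣ 1 := ⟨-n' α₁, by linarith [mul_comm (n' α₁) (α₁ j : ℤ)]⟩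
      have h7 := Int.natCast_dvd_natCast.1 (by simpa using h6 : ((α₁ j : ℕ) : ℤ) ∣ ((1 : ℕ) : ℤ))
      exact Nat.dvd_one.1 h7
    have h3' := B.mem_Pq.1 h3
    refine h3'.2 (B.D.all α₁ (B.mem_Pf.1 h3'.1).1 j ⟨hκj, h4, fun β hβ hne' => ?_⟩).1
    by_cases h5 : β ∈ B.Pq
    · have hβM : β ∈ M := hβ.1
      have h6 := (Finset.sum_eq_zero_iff_of_nonneg (fun α hα =>
        hnn α (Finset.mem_of_mem_erase hα))).1 h2.2 β (Finset.mem_erase.2 ⟨hne', hβM⟩)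
      have h7 : n' β = B.nn ⟨β, (B.mem_Pq.1 h5).1⟩ := dif_pos h5
      have h8 := B.nn_neg ⟨β, (B.mem_Pq.1 h5).1⟩
      rw [h7, neg_eq_zero] at h6
      rcases mul_eq_zero.1 h6 with h9 | h9
      · omega
      · exact_mod_cast h9
    · exact hz β hβ h5
  have hc0 : c = 0 := by
    funext i
    have hi := B.mem_Pq.1 i.2
    have h1 := hvα i (B.mem_Pf.1 hi.1).1
    rw [Finset.sum_eq_zero fun j _ => by rw [hv0 j, zero_mul], Finset.sum_eq_single i] at h1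
    · rw [if_pos rfl] at h1
      exact h1.symm
    · intro b _ hb
      rw [if_neg]
      intro h
      exact hb (Subtype.ext h.symm)
    · intro h; exact absurd (Finset.mem_univ _) h
  refine ⟨hc0, ?_⟩
  funext i
  have h1 := hveq (B.D.j1 i)
  rw [hv0, hc0] at h1
  simp only [Pi.zero_apply, zero_mul, Finset.sum_const_zero, zero_add] at h1
  rw [Finset.sum_eq_single i] at h1
  · rw [if_pos rfl, if_neg (B.D.ap i i.2).2.1] at h1
    rw [Pi.zero_apply]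
    linarith
  · intro b _ hb
    -- the directions of different apexes are different
    have hdis : ∀ j, Dir M κ i j → ¬ Dir M κ b j := by
      intro j h2 h3
      have h4 := h2.2.2 b (B.D.ap b b.2).1 (fun h => hb (Subtype.ext h))
      rw [h3.2.1] at h4
      exact one_ne_zero h4
    have hi1 := (B.D.ap i i.2).2.2.1
    have e1 : ¬ B.D.j1 i = B.D.j1 b := fun h' => hdis _ hi1 (by
      rw [h']; exact (B.D.ap b b.2).2.2.1)
    have e2 : ¬ B.D.j1 i = B.D.j2 b := fun h' => hdis _ hi1 (by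
      rw [h']; exact (B.D.ap b b.2).2.2.2)
    rw [if_neg e1, if_neg e2]
    ring
  · intro h; exact absurd (Finset.mem_univ _) h

/-- the property star for the walls -/
theorem starW (y : B.Aq → ℝ)
    (h : ∀ ρ, 0 ≤ (B.gW ρ : ℝ) + ∑ i, y i * ((B.aW i ρ : ℝ) - B.bW i ρ))
    (hex : ∃ ρ, (B.gW ρ : ℝ) + ∑ i, y i * ((B.aW i ρ : ℝ) - B.bW i ρ) = 0) :
    ∃ i, ¬ ((∀ ρ, (B.gW ρ : ℝ) + ∑ l, y l * ((B.aW l ρ : ℝ) - B.bW l ρ) = 0 → B.aW i ρ = 0) ↔
        ∀ ρ, (B.gW ρ : ℝ) + ∑ l, y l * ((B.aW l ρ : ℝ) - B.bW l ρ) = 0 → B.bW i ρ = 0) := by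
  set w : σ → ℝ := B.uu 0 0 y with hw
  have hwall : ∀ j : B.Jf, (B.gW (Sum.inl j) : ℝ)
      + ∑ i, y i * ((B.aW i (Sum.inl j) : ℝ) - B.bW i (Sum.inl j)) = w j := by
    intro j
    rw [hw, ← B.uu_wall 0 0 y j]
    simp only [Pi.zero_apply, zero_mul, Finset.sum_const_zero, add_zero]
    congr 1
    exact Finset.sum_congr rfl fun i _ => by ring
  have hwall' : ∀ β : B.Hf, (B.gW (Sum.inr β) : ℝ)
      + ∑ i, y i * ((B.aW i (Sum.inr β) : ℝ) - B.bW i (Sum.inr β)) = dot w (β : σ →₀ ℕ) - B.N := by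
    intro β
    have h1 := B.ee_wall 0 0 y β
    have h2 : B.ee 0 0 y β = dot w (β : σ →₀ ℕ) - B.N := rfl
    rw [← h2, ← h1]
    simp only [Pi.zero_apply, zero_mul, Finset.sum_const_zero, add_zero]
    congr 1
    exact Finset.sum_congr rfl fun i _ => by ring
  have hfa : ∀ α ∈ face M κ, dot w α - B.N = 0 := by
    intro α hα
    have h1 := B.ee_face 0 0 y hα
    have h2 : B.ee 0 0 y α = dot w α - B.N := rfl
    rw [← h2, h1]
    simp
  have hw0 : ∀ i, κ i = 0 → w i = 0 := fun i hi => B.uu_J 0 0 y hi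
  obtain ⟨A, hA, hne⟩ := B.D.star w (fun i => by
      by_cases hi : κ i = 0
      · rw [hw0 i hi]
      · have := h (Sum.inl ⟨i, B.mem_Jf.2 hi⟩)
        rwa [hwall] at this) hw0 (fun β hβ => by
      by_cases hf : β ∈ face M κ
      · have := hfa β hf
        show (B.N : ℝ) ≤ _
        linarith
      · have := h (Sum.inr ⟨β, B.mem_Hf.2 ⟨hβ, hf⟩⟩)
        rw [hwall'] at this
        show (B.N : ℝ) ≤ _
        linarith) (fun α hα => by
      have := hfa α hα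
      show _ = (B.N : ℝ)
      linarith) (by
      obtain ⟨ρ, hρ⟩ := hex
      rcases ρ with j | β
      · rw [hwall] at hρ
        exact Or.inl ⟨j, B.mem_Jf.1 j.2, hρ⟩
      · rw [hwall'] at hρ
        have h3 := B.mem_Hf.1 β.2
        refine Or.inr ⟨β, h3.1, h3.2, ?_⟩
        show _ = (B.N : ℝ)
        linarith)
  refine ⟨⟨A, hA⟩, ?_⟩
  -- the walls obstructing a direction
  have key : ∀ j, Dir M κ A j →
      ((∀ ρ : B.Wl, (B.gW ρ : ℝ) + ∑ l, y l * ((B.aW l ρ : ℝ) - B.bW l ρ) = 0 → B.un j ρ = 0) ↔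
        FreeDir M B.N w A j) := by
    intro j hj
    constructor
    · intro h1
      refine ⟨fun h2 => ?_, fun β hβ hβN hne' => ?_⟩
      · have h3 := h1 (Sum.inl ⟨j, B.mem_Jf.2 hj.1⟩) (by rw [hwall]; exact h2)
        have h4 : (if j = j then 1 else 0 : ℕ) = 0 := h3
        rw [if_pos rfl] at h4
        exact one_ne_zero h4
      · by_cases hf : β ∈ face M κ
        · exact hj.2.2 β hf hne'
        · exact h1 (Sum.inr ⟨β, B.mem_Hf.2 ⟨hβ, hf⟩⟩) (by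
            rw [hwall']
            show dot w β - (B.N : ℝ) = 0
            rw [hβN]
            exact sub_self _)
    · rintro ⟨h1, h2⟩ ρ hρ
      rcases ρ with l | β
      · rw [hwall] at hρ
        show (if (l : σ) = j then 1 else 0) = 0
        rw [if_neg]
        intro hl
        exact h1 (hl ▸ hρ)
      · rw [hwall'] at hρ
        have h3 := B.mem_Hf.1 β.2
        refine h2 β h3.1 (by linarith) ?_
        rintro h4
        exact h3.2 (h4 ▸ (B.D.ap A hA).1)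
  obtain ⟨-, -, h8, h9⟩ := B.D.ap A hA
  intro hiff
  apply hne
  rw [← key _ h8, ← key _ h9]
  exact hiff

end BE

end Pool.Agent.Helper30_Simp2
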