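import Pool.Agent.Helper30_Simp.Fin
import Pool.Agent.Helper30_Simp2.CoreC

/-!
# The equivariant motivic monodromy conjecture for all simplicial Newton-nondegenerate polynomials
-/

set_option autoImplicit false
set_option linter.unusedVariables false
set_option linter.unusedSectionVars false

namespace Pool.Agent.Helper30_Simp2

open PowerSeries Finset Pool.Agent.Helper6_Mono Pool.Agent.Helper30_Simp

/-- rationality of the zeta function -/
theorem zeta_rat2 (hZ : Zfin2Stmt) {k : Type} [Field k] [CharZero k] {σ : Type} [Fintype σ]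
    {f : MvPolynomial σ k} (hf : f ≠ 0) (hS : Simplicial f.support) (hN : Nondeg f)
    (B : Set ℚ) (hB1 : 1 ∉ B) (hB : ∀ x ∈ B, AllUB f.support x) :
    ∃ P : Finset (ℤ × ℕ), (∀ p ∈ P, p.1 < 0 ∧ 0 < p.2 ∧
      -((p.1 : ℚ) / p.2) ∈ (slopes f.support ∪ {1}) \ B) ∧ Zf f ∈ zetaRing f P := by
  obtain ⟨χ, hχ⟩ := exists_chi f
  obtain ⟨a, ha0, hRP, ha⟩ := hZ k σ (MM f) (LL f) χ f hf hS hN B hB1 hB
  have hz : Zf f = PowerSeries.mk a := by
    ext m
    rw [Zf, PowerSeries.coeff_mk, PowerSeries.coeff_mk]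
    unfold zetaCoeff
    split_ifs with hm
    · rw [hm, ha0]
    · have hω : m • ((((1 : ℚ) / m : ℚ)) : QZ) = 0 := by
        rw [← AddCircle.coe_nsmul, nsmul_eq_mul, mul_one_div_cancel (by exact_mod_cast hm)]
        exact AddCircle.coe_period 1
      have hL : Lpow f (-(m * Nat.card σ)) = ((LL f)⁻¹ : (MM f)ˣ) ^ (m * Nat.card σ) := by
        unfold Lpow
        rw [← Units.val_pow_eq_pow_val, inv_pow, ← zpow_natCast, ← zpow_neg]
        push_cast
        rfl
      rw [hχ m hm hω, hL, mul_comm, ha m hm hω, Nat.card_eq_fintype_card]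
  obtain ⟨Dn, hDn, Q, hQ⟩ := hRP.toRG
  have hpos : ∀ x ∈ (slopes f.support ∪ {1}) \ B, (0 : ℚ) < x := by
    rintro x ⟨hx | hx, -⟩
    · exact slopes_pos hx
    · rw [Set.mem_singleton_iff.1 hx]
      exact one_pos
  obtain ⟨P, hP, E, hE, hE1⟩ := denoms_inv (LL f) hpos hDn
  refine ⟨P, hP, ?_⟩
  have e1 : Zf f = E * (Q : PowerSeries (MM f)) := by
    rw [← hQ, ← mul_assoc, hE1, one_mul, hz]
  rw [e1]
  have hgen : ({PowerSeries.X} ∪ {x : PowerSeries (MM f) | ∃ p ∈ P,
        x * (1 - PowerSeries.C ((LL f ^ p.1 : (MM f)ˣ) : MM f) * PowerSeries.X ^ p.2) = 1})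
      = gens f P := rfl
  rw [hgen] at hE
  show E * (Q : PowerSeries (MM f)) ∈ Algebra.adjoin (MM f) (gens f P)
  refine mul_mem hE ?_
  have hX : (PowerSeries.X : PowerSeries (MM f)) ∈ Algebra.adjoin (MM f) (gens f P) :=
    Algebra.subset_adjoin (Or.inl rfl)
  clear hQ e1
  induction Q using Polynomial.induction_on' with
  | add p q hp hq =>
    rw [Polynomial.coe_add]
    exact add_mem hp hq
  | monomial n c =>
    rw [← Polynomial.C_mul_X_pow_eq_monomial, Polynomial.coe_mul, Polynomial.coe_C,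
      Polynomial.coe_pow, Polynomial.coe_X]
    exact mul_mem (Subalgebra.algebraMap_mem _ c) (pow_mem hX n)

/-- **the main theorem**, relative to the module statements -/
theorem main2 (hZ : Zfin2Stmt) (hT : StrStmt) (hC : Core2Stmt) {k : Type} [Field k] [Algebra k ℂ]
    {σ : Type} [Fintype σ] {f : MvPolynomial σ k} (hf : ∀ c : k, f ≠ MvPolynomial.C c)
    (hS : Simplicial f.support) (hN : Nondeg f) :
    ∃ S : Finset (ℤ × ℕ),
      (∀ p ∈ S, p.1 < 0 ∧ 0 < p.2 ∧
        (bfun (MvPolynomial.map (algebraMap k ℂ) f)).eval ((p.1 : ℂ) / (p.2 : ℂ)) = 0) ∧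
      Zf f ∈ zetaRing f S := by
  classical
  have hinj : Function.Injective (algebraMap k ℂ) := (algebraMap k ℂ).injective
  have : CharZero k := (RingHom.charZero_iff hinj).2 inferInstance
  have hsupp : (MvPolynomial.map (algebraMap k ℂ) f).support = f.support :=
    MvPolynomial.support_map_of_injective _ hinj
  have hf0 : f ≠ 0 := by
    have := hf 0
    rwa [map_zero] at this
  have hf' : ∀ c : ℂ, MvPolynomial.map (algebraMap k ℂ) f ≠ MvPolynomial.C c := by
    intro c hc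
    have h1 : f.support ⊆ {0} := by
      rw [← hsupp, hc]
      intro α hα
      rw [MvPolynomial.mem_support_iff, MvPolynomial.coeff_C] at hα
      by_contra h2
      rw [Finset.mem_singleton] at h2
      rw [if_neg (Ne.symm h2)] at hα
      exact hα rfl
    apply hf (MvPolynomial.coeff 0 f)
    ext α
    rw [MvPolynomial.coeff_C]
    split_ifs with h2
    · rw [← h2]
    · by_contra h3
      have h4 := h1 (MvPolynomial.mem_support_iff.2 h3)
      exact h2 (Finset.mem_singleton.1 h4).symm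
  set B : Set ℚ := {x | x ≠ 1 ∧ AllUB f.support x} with hB
  obtain ⟨P, hP, hZ'⟩ := zeta_rat2 hZ hf0 hS hN B (fun h => h.1 rfl) (fun x hx => hx.2)
  have hroot : ∀ x ∈ (slopes f.support ∪ {1}) \ B,
      (bfun (MvPolynomial.map (algebraMap k ℂ) f)).eval (-(x : ℂ)) = 0 := by
    rintro x ⟨-, hx⟩
    by_cases hx1 : x = 1
    · rw [hx1, Rat.cast_one]
      exact root_one hf'
    · have h1 : ¬ AllUB f.support x := fun h => hx ⟨hx1, h⟩
      obtain ⟨κ, D, hD⟩ := hT σ f.support x h1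
      have h2 := hC σ (MvPolynomial.map (algebraMap k ℂ) f) κ
      rw [hsupp] at h2
      have h3 := h2 hS D
      have hN0 : (D.N : ℂ) ≠ 0 := by exact_mod_cast D.hN.ne'
      have h4 : (x : ℂ) = ((∑ i, κ i : ℕ) : ℂ) / (D.N : ℕ) := by
        rw [eq_div_iff hN0]
        have : (((∑ i, κ i : ℕ) : ℚ) : ℂ) = ((x * D.N : ℚ) : ℂ) := by rw [hD]
        rw [Rat.cast_natCast, Rat.cast_mul, Rat.cast_natCast] at this
        exact this.symm
      rw [h4]
      exact h3
  refine ⟨P, fun p hp => ?_, hZ'⟩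
  obtain ⟨h1, h2, h3⟩ := hP p hp
  refine ⟨h1, h2, ?_⟩
  have h4 := hroot _ h3
  have h5 : (-(((-((p.1 : ℚ) / (p.2 : ℚ)) : ℚ) : ℚ) : ℂ)) = (p.1 : ℂ) / (p.2 : ℂ) := by
    push_cast
    ring
  rw [h5] at h4
  exact h4

end Pool.Agent.Helper30_Simp2
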